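import Mathlib

set_option autoImplicit false

/-!
# The numbers `s(n, G)` and `p(n, G)`
-/

namespace Pool.Agent.R92.Excl

open SimpleGraph

/-- The two unordered pairs share no vertex. -/
def Apart {V : Type*} (e g : Sym2 V) : Prop := ∀ v, v ∈ e → v ∉ g

/-- The map `f` on the edges of `H` is `G`-blocking on `H`: each copy of `G` in `H` has an edge
whose value under `f` meets the vertex set of the copy. -/
def Blocking {α V : Type*} (G : SimpleGraph α) (H : SimpleGraph V)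
    (f : H.edgeSet → H.edgeSet) : Prop :=
  ∀ φ : G.Copy H, ∃ e : G.edgeSet, ∃ a : α, φ a ∈ (f (φ.toHom.mapEdgeSet e) : Sym2 V)

/-- `s(n, G)`. -/
noncomputable def sNum {α : Type*} (n : ℕ) (G : SimpleGraph α) : ℕ :=
  sSup {m | ∃ H : SimpleGraph (Fin n), H.edgeSet.ncard = m ∧
    ∃ f : H.edgeSet → H.edgeSet, (∀ e : H.edgeSet, Apart (e : Sym2 (Fin n)) (f e)) ∧ Blocking G H f}

/-- `p(n, G)`. -/
noncomputable def pNum {α : Type*} (n : ℕ) (G : SimpleGraph α) : ℕ :=
  sSup {m | ∃ f : (⊤ : SimpleGraph (Fin n)).edgeSet → (⊤ : SimpleGraph (Fin n)).edgeSet,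
    m ≤ {e : (⊤ : SimpleGraph (Fin n)).edgeSet | Apart (e : Sym2 (Fin n)) (f e)}.ncard ∧
      Blocking G ⊤ f}

end Pool.Agent.R92.Excl
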