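import Mathlib
import Pool.Agent.R92.Excl.Defs

set_option autoImplicit false

/-!
# The path with three vertices on eight vertices: `p(8, P₃) = 14` and `s(8, P₃) ≤ 13`

Counting over the `56` triples of vertices: a triple spanning `i` good edges needs at least `i - 1`
coverings, and each good edge gives two coverings, so `6 m - 56 ≤ 2 m`, that is `m ≤ 14`. If
`m = 14` then every triple spans an edge and the coverings are exact. When the values of the map
have to be good edges too, this leads to a contradiction.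
-/

namespace Pool.Agent.R92.Excl

open SimpleGraph

/-- The counting system: `h` is the indicator of the good edges, `u a b c` is the indicator of `c`
being covered by the value at the edge `ab`. -/
structure Sys (h : Fin 8 → Fin 8 → ℤ) (u : Fin 8 → Fin 8 → Fin 8 → ℤ) : Prop where
  h0 : ∀ a b, 0 ≤ h a b
  h1 : ∀ a b, h a b ≤ 1
  hs : ∀ a b, h a b = h b a
  hi : ∀ a, h a a = 0
  u0 : ∀ a b c, 0 ≤ u a b c
  u1 : ∀ a b c, u a b c ≤ 1
  us : ∀ a b c, u a b c = u b a c
  ud : ∀ a b, u a b a = 0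
  usum : ∀ a b, ∑ c, u a b c = 2 * h a b
  blk : ∀ a b c, a ≠ b → b ≠ c → a ≠ c →
    h a b + h b c + h c a ≤ u a b c + u b c a + u c a b + 1

variable {h : Fin 8 → Fin 8 → ℤ} {u : Fin 8 → Fin 8 → Fin 8 → ℤ}

/-- The indicator of a triple of distinct vertices. -/
def w (a b c : Fin 8) : ℤ := if a ≠ b ∧ b ≠ c ∧ a ≠ c then 1 else 0

theorem rot (F : Fin 8 → Fin 8 → Fin 8 → ℤ) :
    ∑ a, ∑ b, ∑ c, F b c a = ∑ a, ∑ b, ∑ c, F a b c := by
  rw [Finset.sum_comm]
  refine Finset.sum_congr rfl fun b _ => ?_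
  rw [Finset.sum_comm]

theorem w_nonneg (a b c : Fin 8) : 0 ≤ w a b c := by
  unfold w; split_ifs <;> norm_num

theorem w_rot (a b c : Fin 8) : w b c a = w a b c := by
  unfold w
  congr 1
  apply propext
  constructor
  · rintro ⟨h1, h2, h3⟩; exact ⟨h3.symm, h1, h2.symm⟩
  · rintro ⟨h1, h2, h3⟩; exact ⟨h2, h3.symm, h1.symm⟩

theorem w_sum : ∑ a, ∑ b, ∑ c, w a b c = 336 := by decide +kernel

theorem w_sum_c : ∀ a b : Fin 8, a ≠ b → ∑ c, w a b c = 6 := by decide +kernel

theorem Sys.uw (S : Sys h u) (a b c : Fin 8) : w a b c * u a b c = u a b c := by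
  unfold w
  split_ifs with hd
  · ring
  · have : u a b c = 0 := by
      by_cases hab : a = b
      · subst hab
        have h1 := S.usum a a
        rw [S.hi, mul_zero] at h1
        exact (Finset.sum_eq_zero_iff_of_nonneg (fun i _ => S.u0 a a i)).1 h1 c
          (Finset.mem_univ c)
      · by_cases hac : a = c
        · subst hac; exact S.ud a b
        · have hbc : b = c := by
            by_contra hbc
            exact hd ⟨hab, hbc, hac⟩
          subst hbc
          rw [S.us]; exact S.ud b a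
    rw [this]; ring

theorem Sys.sum_u (S : Sys h u) : ∑ a, ∑ b, ∑ c, u a b c = 2 * ∑ a, ∑ b, h a b := by
  simp_rw [S.usum, Finset.mul_sum]

theorem Sys.sum_h (S : Sys h u) :
    ∑ a, ∑ b, ∑ c, w a b c * h a b = 6 * ∑ a, ∑ b, h a b := by
  rw [Finset.mul_sum]
  refine Finset.sum_congr rfl fun a _ => ?_
  rw [Finset.mul_sum]
  refine Finset.sum_congr rfl fun b _ => ?_
  rw [← Finset.sum_mul]
  by_cases hab : a = b
  · subst hab; rw [S.hi]; ring
  · rw [w_sum_c a b hab]

/-- The defect of a triple. -/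
def D (h : Fin 8 → Fin 8 → ℤ) (u : Fin 8 → Fin 8 → Fin 8 → ℤ) (a b c : Fin 8) : ℤ :=
  u a b c + u b c a + u c a b + 1 - (h a b + h b c + h c a)

theorem Sys.sum_D (S : Sys h u) :
    ∑ a, ∑ b, ∑ c, w a b c * D h u a b c = 336 - 12 * ∑ a, ∑ b, h a b := by
  have e : ∀ a b c : Fin 8, w a b c * D h u a b c =
      w a b c * u a b c + w b c a * u b c a + w c a b * u c a b + w a b c
        - (w a b c * h a b + w b c a * h b c + w c a b * h c a) := by
    intro a b c
    rw [show w c a b = w a b c from (w_rot b c a).trans (w_rot a b c), w_rot a b c]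
    unfold D; ring
  simp_rw [e, S.uw, Finset.sum_sub_distrib, Finset.sum_add_distrib]
  have r1 := rot (fun a b c => u a b c)
  have r2 := rot (fun a b c => u c a b)
  have r3 := rot (fun a b c => w a b c * h a b)
  have r4 := rot (fun a b c => w c a b * h c a)
  beta_reduce at r1 r2 r3 r4
  rw [r1, ← r2, r3, ← r4, w_sum, S.sum_u, S.sum_h]
  ring

theorem Sys.le (S : Sys h u) : ∑ a, ∑ b, h a b ≤ 28 := by
  have h1 := S.sum_D
  have h2 : 0 ≤ ∑ a, ∑ b, ∑ c, w a b c * D h u a b c := by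
    refine Finset.sum_nonneg fun a _ => Finset.sum_nonneg fun b _ => Finset.sum_nonneg fun c _ => ?_
    by_cases hd : a ≠ b ∧ b ≠ c ∧ a ≠ c
    · have := S.blk a b c hd.1 hd.2.1 hd.2.2
      apply mul_nonneg (w_nonneg a b c)
      unfold D; linarith
    · have : w a b c = 0 := by unfold w; rw [if_neg hd]
      rw [this]; simp
  linarith

theorem Sys.eqn (S : Sys h u) (ht : ∑ a, ∑ b, h a b = 28) (a b c : Fin 8)
    (hab : a ≠ b) (hbc : b ≠ c) (hac : a ≠ c) :
    u a b c + u b c a + u c a b + 1 = h a b + h b c + h c a := by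
  have h1 := S.sum_D
  rw [ht] at h1
  have hn : ∀ a b c : Fin 8, 0 ≤ w a b c * D h u a b c := by
    intro a b c
    by_cases hd : a ≠ b ∧ b ≠ c ∧ a ≠ c
    · have := S.blk a b c hd.1 hd.2.1 hd.2.2
      apply mul_nonneg (w_nonneg a b c)
      unfold D; linarith
    · have : w a b c = 0 := by unfold w; rw [if_neg hd]
      rw [this]; simp
  have h2 : ∑ a, ∑ b, ∑ c, w a b c * D h u a b c = 0 := by rw [h1]; norm_num
  rw [Finset.sum_eq_zero_iff_of_nonneg (fun a _ => Finset.sum_nonneg fun b _ =>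
    Finset.sum_nonneg fun c _ => hn a b c)] at h2
  have h3 := h2 a (Finset.mem_univ a)
  rw [Finset.sum_eq_zero_iff_of_nonneg (fun b _ => Finset.sum_nonneg fun c _ => hn a b c)] at h3
  have h4 := h3 b (Finset.mem_univ b)
  rw [Finset.sum_eq_zero_iff_of_nonneg (fun c _ => hn a b c)] at h4
  have h5 := h4 c (Finset.mem_univ c)
  have h6 : w a b c = 1 := by unfold w; rw [if_pos ⟨hab, hbc, hac⟩]
  rw [h6, one_mul] at h5
  unfold D at h5
  linarith

/-- The extremal situation: `14` good edges, and the values of the map are good edges. -/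
structure Good (h : Fin 8 → Fin 8 → ℤ) (u : Fin 8 → Fin 8 → Fin 8 → ℤ) : Prop where
  sys : Sys h u
  tot : ∑ a, ∑ b, h a b = 28
  ed : ∀ a b, h a b = 1 → ∃ x y, x ≠ y ∧ h x y = 1 ∧ u a b x = 1 ∧ u a b y = 1

theorem Good.comp (G : Good h u) (σ : Equiv.Perm (Fin 8)) :
    Good (fun a b => h (σ a) (σ b)) (fun a b c => u (σ a) (σ b) (σ c)) := by
  refine ⟨⟨fun a b => G.sys.h0 _ _, fun a b => G.sys.h1 _ _, fun a b => G.sys.hs _ _,
    fun a => G.sys.hi _, fun a b c => G.sys.u0 _ _ _, fun a b c => G.sys.u1 _ _ _,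
    fun a b c => G.sys.us _ _ _, fun a b => G.sys.ud _ _, ?_, ?_⟩, ?_, ?_⟩
  · intro a b
    exact (Equiv.sum_comp σ (fun c => u (σ a) (σ b) c)).trans (G.sys.usum _ _)
  · intro a b c hab hbc hac
    exact G.sys.blk _ _ _ (fun h => hab (σ.injective h)) (fun h => hbc (σ.injective h))
      (fun h => hac (σ.injective h))
  · have : ∀ a, ∑ b, h (σ a) (σ b) = ∑ b, h (σ a) b := fun a => Equiv.sum_comp σ (fun b => h (σ a) b)
    simp_rw [this]
    rw [← G.tot]
    exact Equiv.sum_comp σ (fun a => ∑ b, h a b)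
  · intro a b hab
    obtain ⟨x, y, hxy, h1, h2, h3⟩ := G.ed _ _ hab
    refine ⟨σ.symm x, σ.symm y, fun h => hxy (σ.symm.injective h), ?_, ?_, ?_⟩ <;> simpa

/-- Every triple spans a good edge. -/
theorem Good.tri (G : Good h u) (a b c : Fin 8) (hab : a ≠ b) (hbc : b ≠ c) (hac : a ≠ c) :
    1 ≤ h a b + h b c + h a c := by
  have := G.sys.eqn G.tot a b c hab hbc hac
  have h1 := G.sys.u0 a b c
  have h2 := G.sys.u0 b c a
  have h3 := G.sys.u0 c a b
  have h4 := G.sys.hs c a
  linarith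

theorem Good.ule (G : Good h u) (a b c : Fin 8) (hab : a ≠ b) (hbc : b ≠ c) (hac : a ≠ c) :
    u a b c ≤ h a b + h b c + h a c - 1 := by
  have := G.sys.eqn G.tot a b c hab hbc hac
  have h2 := G.sys.u0 b c a
  have h3 := G.sys.u0 c a b
  have h4 := G.sys.hs c a
  linarith

/-- Two cliques on four vertices with two edges between them, none of them at `v` or `r`. -/
structure Conf (h : Fin 8 → Fin 8 → ℤ) (v p q r a b c d : Fin 8) : Prop where
  nd : [v, p, q, r, a, b, c, d].Nodup
  vp : h v p = 1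
  vq : h v q = 1
  vr : h v r = 1
  pq : h p q = 1
  pr : h p r = 1
  qr : h q r = 1
  ab : h a b = 1
  ac : h a c = 1
  ad : h a d = 1
  bc : h b c = 1
  bd : h b d = 1
  cd : h c d = 1
  va : h v a = 0
  vb : h v b = 0
  vc : h v c = 0
  vd : h v d = 0
  ra : h r a = 0
  rb : h r b = 0
  rc : h r c = 0
  rd : h r d = 0
  X : h p a + h p b + h p c + h p d + (h q a + h q b + h q c + h q d) = 2

theorem sum_names {v p q r a b c d : Fin 8} (nd : [v, p, q, r, a, b, c, d].Nodup)
    (F : Fin 8 → ℤ) : ∑ x, F x = F v + F p + F q + F r + F a + F b + F c + F d := by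
  have h1 : [v, p, q, r, a, b, c, d].toFinset = Finset.univ := by
    apply Finset.eq_univ_of_card
    rw [List.toFinset_card_of_nodup nd]
    rfl
  rw [← h1, List.sum_toFinset F nd]
  simp
  ring

theorem all_names {v p q r a b c d : Fin 8} (nd : [v, p, q, r, a, b, c, d].Nodup)
    (x : Fin 8) : x = v ∨ x = p ∨ x = q ∨ x = r ∨ x = a ∨ x = b ∨ x = c ∨ x = d := by
  have h1 : [v, p, q, r, a, b, c, d].toFinset = Finset.univ := by
    apply Finset.eq_univ_of_card
    rw [List.toFinset_card_of_nodup nd]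
    rfl
  have h2 := Finset.mem_univ x
  rw [← h1] at h2
  simpa using h2

theorem Conf.swap (S : Sys h u) {v p q r a b c d : Fin 8} (C : Conf h v p q r a b c d) :
    Conf h v q p r a b c d := by
  refine ⟨?_, C.vq, C.vp, C.vr, by rw [S.hs]; exact C.pq, C.qr, C.pr, C.ab, C.ac, C.ad, C.bc,
    C.bd, C.cd, C.va, C.vb, C.vc, C.vd, C.ra, C.rb, C.rc, C.rd, by linarith [C.X]⟩
  have := C.nd
  refine (List.Perm.nodup_iff ?_).1 this
  exact List.Perm.cons _ (List.Perm.swap _ _ _)

theorem Conf.rot (S : Sys h u) {v p q r a b c d : Fin 8} (C : Conf h v p q r a b c d) :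
    Conf h v p q r b c d a := by
  refine ⟨?_, C.vp, C.vq, C.vr, C.pq, C.pr, C.qr, C.bc, C.bd, by rw [S.hs]; exact C.ab, C.cd,
    by rw [S.hs]; exact C.ac, by rw [S.hs]; exact C.ad, C.vb, C.vc, C.vd, C.va, C.rb, C.rc, C.rd,
    C.ra, by linarith [C.X]⟩
  have := C.nd
  refine (List.Perm.nodup_iff ?_).1 this
  refine List.Perm.cons _ (List.Perm.cons _ (List.Perm.cons _ (List.Perm.cons _ ?_)))
  exact (List.perm_append_comm (l₁ := [a]) (l₂ := [b, c, d]))

/-- The key local step at the vertex `p`. -/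
theorem star (G : Good h u) {v p q r a b c d : Fin 8} (C : Conf h v p q r a b c d) :
    (h a p = 1 ∧ h a q = 1) ∨ (h b p = 1 ∧ h b q = 1) ∨ (h c p = 1 ∧ h c q = 1) ∨
      (h d p = 1 ∧ h d q = 1) ∨ 2 ≤ h a p + h b p + h c p + h d p := by
  have nd := C.nd
  simp only [List.nodup_cons, List.mem_cons, List.not_mem_nil, not_or, or_false,
    not_false_eq_true, List.nodup_nil, and_true] at nd
  obtain ⟨⟨vp, vq, vr, va, vb, vc, vd⟩, ⟨pq, pr, pa, pb, pc, pd⟩, ⟨qr, qa, qb, qc, qd⟩,
    ⟨ra, rb, rc, rd⟩, ⟨ab, ac, ad⟩, ⟨bc, bd⟩, cd⟩ := nd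
  have S := G.sys
  -- a helper: the values of the map at an edge whose possible values are restricted
  have key : ∀ U : Fin 8 → ℤ, (∃ x y, x ≠ y ∧ h x y = 1 ∧ U x = 1 ∧ U y = 1) →
      U v = 0 → U p = 0 → U r = 0 → U a ≤ h a p → U b ≤ h b p → U c ≤ h c p → U d ≤ h d p →
      (h a p = 1 ∧ h a q = 1) ∨ (h b p = 1 ∧ h b q = 1) ∨ (h c p = 1 ∧ h c q = 1) ∨
      (h d p = 1 ∧ h d q = 1) ∨ 2 ≤ h a p + h b p + h c p + h d p := by
    intro U ⟨x, y, hxy, h1, h2, h3⟩ Uv Up Ur Ua Ub Uc Ud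
    have s1 := S.hs q a
    have s2 := S.hs q b
    have s3 := S.hs q c
    have s4 := S.hs q d
    have a0 := S.h0 a p
    have b0 := S.h0 b p
    have c0 := S.h0 c p
    have d0 := S.h0 d p
    have a1 := S.h1 a p
    have b1 := S.h1 b p
    have c1 := S.h1 c p
    have d1 := S.h1 d p
    rcases all_names C.nd x with rfl | rfl | rfl | rfl | rfl | rfl | rfl | rfl <;>
    rcases all_names C.nd y with rfl | rfl | rfl | rfl | rfl | rfl | rfl | rfl <;>
    first
      | exact absurd rfl hxy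
      | omega
  have hr : ∀ x, x ≠ v → x ≠ r → u v r x ≤ h r x + h v x := by
    intro x h1 h2
    have := G.ule v r x vr (Ne.symm h2) (Ne.symm h1)
    have := C.vr
    linarith
  have e1 := sum_names C.nd (fun x => u v r x)
  rw [S.usum, C.vr] at e1
  have e2 := S.ud v r
  have e3 : u v r r = 0 := by rw [S.us]; exact S.ud r v
  have f1 := hr a (Ne.symm va) (Ne.symm ra)
  have f2 := hr b (Ne.symm vb) (Ne.symm rb)
  have f3 := hr c (Ne.symm vc) (Ne.symm rc)
  have f4 := hr d (Ne.symm vd) (Ne.symm rd)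
  rw [C.ra, C.va] at f1
  rw [C.rb, C.vb] at f2
  rw [C.rc, C.vc] at f3
  rw [C.rd, C.vd] at f4
  have g1 := S.u1 v r p
  have g2 := S.u1 v r q
  have g3 : u v r p = 1 := by linarith
  have g4 := S.eqn G.tot v r p vr (Ne.symm pr) vp
  have g5 : h r p = 1 := by rw [S.hs]; exact C.pr
  have g6 : h p v = 1 := by rw [S.hs]; exact C.vp
  rw [g3, C.vr, g5, g6] at g4
  have k1 := S.u0 r p v
  have k2 := S.u0 p v r
  have hcase : u r p v = 0 ∨ u p v r = 0 := by omega
  rcases hcase with hc | hc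
  · apply key (fun x => u r p x) (G.ed r p g5) hc
    · show u r p p = 0
      rw [S.us]; exact S.ud p r
    · exact S.ud r p
    · have := G.ule r p a (Ne.symm pr) pa ra
      have s := S.hs p a
      have := C.ra
      show u r p a ≤ h a p
      linarith
    · have := G.ule r p b (Ne.symm pr) pb rb
      have s := S.hs p b
      have := C.rb
      show u r p b ≤ h b p
      linarith
    · have := G.ule r p c (Ne.symm pr) pc rc
      have s := S.hs p c
      have := C.rc
      show u r p c ≤ h c p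
      linarith
    · have := G.ule r p d (Ne.symm pr) pd rd
      have s := S.hs p d
      have := C.rd
      show u r p d ≤ h d p
      linarith
  · apply key (fun x => u p v x) (G.ed p v g6)
    · show u p v v = 0
      rw [S.us]; exact S.ud v p
    · exact S.ud p v
    · exact hc
    · have := G.ule p v a (Ne.symm vp) va pa
      have s := S.hs p a
      have := C.va
      show u p v a ≤ h a p
      linarith
    · have := G.ule p v b (Ne.symm vp) vb pb
      have s := S.hs p b
      have := C.vb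
      show u p v b ≤ h b p
      linarith
    · have := G.ule p v c (Ne.symm vp) vc pc
      have s := S.hs p c
      have := C.vc
      show u p v c ≤ h c p
      linarith
    · have := G.ule p v d (Ne.symm vp) vd pd
      have s := S.hs p d
      have := C.vd
      show u p v d ≤ h d p
      linarith

/-- The case in which both cross edges meet at `a`. -/
theorem last (G : Good h u) {v p q r a b c d : Fin 8} (C : Conf h v p q r a b c d)
    (hp : h a p = 1) (hq : h a q = 1) : False := by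
  have nd := C.nd
  simp only [List.nodup_cons, List.mem_cons, List.not_mem_nil, not_or, or_false,
    not_false_eq_true, List.nodup_nil, and_true] at nd
  obtain ⟨⟨vp, vq, vr, va, vb, vc, vd⟩, ⟨pq, pr, pa, pb, pc, pd⟩, ⟨qr, qa, qb, qc, qd⟩,
    ⟨ra, rb, rc, rd⟩, ⟨ab, ac, ad⟩, ⟨bc, bd⟩, cd⟩ := nd
  have S := G.sys
  have X := C.X
  have s1 := S.hs p a
  have s2 := S.hs q a
  have z1 := S.h0 p b
  have z2 := S.h0 p c
  have z3 := S.h0 p d
  have z4 := S.h0 q b
  have z5 := S.h0 q c
  have z6 := S.h0 q d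
  have pb0 : h p b = 0 := by linarith
  have pc0 : h p c = 0 := by linarith
  have pd0 : h p d = 0 := by linarith
  have qb0 : h q b = 0 := by linarith
  have qc0 : h q c = 0 := by linarith
  have qd0 : h q d = 0 := by linarith
  -- the value at an edge `xy` of the triangle `b c d` contains the third vertex `z`
  have key : ∀ x y z : Fin 8, x ≠ y → h x y = 1 → h v x = 0 → h v y = 0 → h p x = 0 → h p y = 0 →
      h q x = 0 → h q y = 0 → h r x = 0 → h r y = 0 → v ≠ x → v ≠ y → p ≠ x → p ≠ y → q ≠ x →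
      q ≠ y → r ≠ x → r ≠ y →
      (∀ F : Fin 8 → ℤ, ∑ t, F t = F v + F p + F q + F r + F a + F x + F y + F z) →
      u x y z = 1 := by
    intro x y z xy hxy h1 h2 h3 h4 h5 h6 h7 h8 n1 n2 n3 n4 n5 n6 n7 n8 hs
    have e1 := hs (fun t => u x y t)
    rw [S.usum, hxy] at e1
    have t1 := G.ule x y v xy (Ne.symm n2) (Ne.symm n1)
    have t2 := G.ule x y p xy (Ne.symm n4) (Ne.symm n3)
    have t3 := G.ule x y q xy (Ne.symm n6) (Ne.symm n5)
    have t4 := G.ule x y r xy (Ne.symm n8) (Ne.symm n7)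
    rw [hxy, S.hs y v, S.hs x v, h1, h2] at t1
    rw [hxy, S.hs y p, S.hs x p, h3, h4] at t2
    rw [hxy, S.hs y q, S.hs x q, h5, h6] at t3
    rw [hxy, S.hs y r, S.hs x r, h7, h8] at t4
    have t5 := S.ud x y
    have t6 : u x y y = 0 := by rw [S.us]; exact S.ud y x
    have t7 := S.u1 x y a
    have t8 := S.u1 x y z
    linarith
  have hsum := fun F => sum_names C.nd F
  have k1 := key b c d bc C.bc C.vb C.vc pb0 pc0 qb0 qc0 C.rb C.rc vb vc pb pc qb qc rb rc
    (fun F => by rw [hsum F])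
  have k2 := key c d b cd C.cd C.vc C.vd pc0 pd0 qc0 qd0 C.rc C.rd vc vd pc pd qc qd rc rd
    (fun F => by rw [hsum F]; ring)
  have k3 := key d b c (Ne.symm bd) (by rw [S.hs]; exact C.bd) C.vd C.vb pd0 pb0 qd0 qb0 C.rd C.rb
    vd vb pd pb qd qb rd rb (fun F => by rw [hsum F]; ring)
  have k4 := S.eqn G.tot b c d bc cd bd
  have k5 : h d b = 1 := by rw [S.hs]; exact C.bd
  rw [k1, k2, k3, C.bc, C.cd, k5] at k4
  norm_num at k4

theorem final (G : Good h u) {v p q r a b c d : Fin 8} (C : Conf h v p q r a b c d) : False := by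
  have S := G.sys
  have C1 := C.rot S
  have C2 := C1.rot S
  have C3 := C2.rot S
  have X := C.X
  have s1 := S.hs p a
  have s2 := S.hs p b
  have s3 := S.hs p c
  have s4 := S.hs p d
  have s5 := S.hs q a
  have s6 := S.hs q b
  have s7 := S.hs q c
  have s8 := S.hs q d
  rcases star G C with ⟨h1, h2⟩ | ⟨h1, h2⟩ | ⟨h1, h2⟩ | ⟨h1, h2⟩ | h1
  · exact last G C h1 h2
  · exact last G C1 h1 h2
  · exact last G C2 h1 h2
  · exact last G C3 h1 h2
  · rcases star G (C.swap S) with ⟨h3, h2⟩ | ⟨h3, h2⟩ | ⟨h3, h2⟩ | ⟨h3, h2⟩ | h2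
    · exact last G C h2 h3
    · exact last G C1 h2 h3
    · exact last G C2 h2 h3
    · exact last G C3 h2 h3
    · linarith

theorem Sys.h01 (S : Sys h u) (a b : Fin 8) : h a b = 0 ∨ h a b = 1 := by
  have h1 := S.h0 a b
  have h2 := S.h1 a b
  omega

/-- Renaming the vertices so that `v` is the last one and its neighbours come just before it. -/
theorem pattern (S : Sys h u) (v : Fin 8) (k : ℕ) (hk7 : k ≤ 7) (hk : ∑ b, h v b = (k : ℤ)) :
    ∃ σ : Equiv.Perm (Fin 8), (∀ i : Fin 8, i.val < 7 - k → h (σ 7) (σ i) = 0) ∧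
      (∀ i : Fin 8, 7 - k ≤ i.val → i.val < 7 → h (σ 7) (σ i) = 1) := by
  classical
  let t : Fin 8 → Fin 3 := fun i => if i.val = 7 then 2 else if i.val < 7 - k then 0 else 1
  let col : Fin 8 → Fin 3 := fun b => if b = v then 2 else if h v b = 0 then 0 else 1
  have c2 : (Finset.univ.filter (fun b => col b = 2)).card = 1 := by
    rw [Finset.card_eq_one]
    refine ⟨v, ?_⟩
    ext b
    simp only [Finset.mem_filter, Finset.mem_univ, true_and, Finset.mem_singleton, col]
    split_ifs with h1 h2 <;> simp [h1]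
  have c1 : (Finset.univ.filter (fun b => col b = 1)).card = k := by
    have e1 : (Finset.univ.filter (fun b => col b = 1)) = Finset.univ.filter (fun b => h v b = 1) := by
      ext b
      simp only [Finset.mem_filter, Finset.mem_univ, true_and, col]
      split_ifs with h1 h2
      · subst h1; simp [S.hi]
      · simp [h2]
      · have := S.h01 v b
        simp only [true_iff]
        tauto
    rw [e1]
    have e2 : ((Finset.univ.filter (fun b => h v b = 1)).card : ℤ) = ∑ b, h v b := by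
      rw [Finset.card_filter]
      push_cast
      refine Finset.sum_congr rfl fun b _ => ?_
      rcases S.h01 v b with h1 | h1 <;> simp [h1]
    rw [hk] at e2
    exact_mod_cast e2
  have c0 : (Finset.univ.filter (fun b => col b = 0)).card = 7 - k := by
    have e := Finset.card_eq_sum_card_fiberwise (s := (Finset.univ : Finset (Fin 8)))
      (t := (Finset.univ : Finset (Fin 3))) (f := col) (fun _ _ => by simp)
    rw [Fin.sum_univ_three, c1, c2] at e
    simp only [Finset.card_univ, Fintype.card_fin] at e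
    omega
  have t2 : (Finset.univ.filter (fun b => t b = 2)).card = 1 := by
    simp only [t]
    interval_cases k <;> decide
  have t1 : (Finset.univ.filter (fun b => t b = 1)).card = k := by
    simp only [t]
    interval_cases k <;> decide
  have t0 : (Finset.univ.filter (fun b => t b = 0)).card = 7 - k := by
    simp only [t]
    interval_cases k <;> decide
  have hcard : ∀ c : Fin 3, Fintype.card {a // t a = c} = Fintype.card {b // col b = c} := by
    intro c
    rw [Fintype.card_subtype, Fintype.card_subtype]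
    fin_cases c
    · exact t0.trans c0.symm
    · exact t1.trans c1.symm
    · exact t2.trans c2.symm
  let σ : Equiv.Perm (Fin 8) := Equiv.ofFiberEquiv (f := t) (g := col)
    (fun c => Fintype.equivOfCardEq (hcard c))
  have hσ : ∀ i, col (σ i) = t i := fun i => Equiv.ofFiberEquiv_map _ i
  have h7 : σ 7 = v := by
    have := hσ 7
    have e : t 7 = 2 := by simp [t]
    rw [e] at this
    simp only [col] at this
    by_contra hne
    rw [if_neg hne] at this
    split_ifs at this <;> exact absurd this (by decide)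
  refine ⟨σ, ?_, ?_⟩
  · intro i hi
    have := hσ i
    have e : t i = 0 := by
      simp only [t]
      rw [if_neg (by omega), if_pos hi]
    rw [e] at this
    simp only [col] at this
    rw [h7]
    by_contra hne
    rw [if_neg hne] at this
    split_ifs at this <;> exact absurd this (by decide)
  · intro i hi hi'
    have := hσ i
    have e : t i = 1 := by
      simp only [t]
      rw [if_neg (by omega), if_neg (by omega)]
    rw [e] at this
    simp only [col] at this
    rw [h7]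
    split_ifs at this with g1 g2
    · exact absurd this (by decide)
    · exact absurd this (by decide)
    · rcases S.h01 v (σ i) with g | g
      · exact absurd g g2
      · exact g

/-- The number of good edges, pair by pair. -/
theorem Good.pairs (G : Good h u) :
    h 0 1 + h 0 2 + h 0 3 + h 0 4 + h 0 5 + h 0 6 + h 0 7 + (h 1 2 + h 1 3 + h 1 4 + h 1 5 + h 1 6
      + h 1 7) + (h 2 3 + h 2 4 + h 2 5 + h 2 6 + h 2 7) + (h 3 4 + h 3 5 + h 3 6 + h 3 7)
      + (h 4 5 + h 4 6 + h 4 7) + (h 5 6 + h 5 7) + h 6 7 = 14 := by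
  have ht := G.tot
  simp only [Fin.sum_univ_eight] at ht
  have S := G.sys
  rw [S.hi 0, S.hi 1, S.hi 2, S.hi 3, S.hi 4, S.hi 5, S.hi 6, S.hi 7, S.hs 1 0, S.hs 2 0, S.hs 2 1,
    S.hs 3 0, S.hs 3 1, S.hs 3 2, S.hs 4 0, S.hs 4 1, S.hs 4 2, S.hs 4 3, S.hs 5 0, S.hs 5 1,
    S.hs 5 2, S.hs 5 3, S.hs 5 4, S.hs 6 0, S.hs 6 1, S.hs 6 2, S.hs 6 3, S.hs 6 4, S.hs 6 5,
    S.hs 7 0, S.hs 7 1, S.hs 7 2, S.hs 7 3, S.hs 7 4, S.hs 7 5, S.hs 7 6] at ht
  omega

/-- Two non-neighbours of a vertex are adjacent. -/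
theorem Good.clq (G : Good h u) (a b c : Fin 8) (hab : a ≠ b) (hbc : b ≠ c) (hac : a ≠ c)
    (h1 : h c a = 0) (h2 : h c b = 0) : h a b = 1 := by
  have t := G.tri a b c hab hbc hac
  have t2 := G.sys.h1 a b
  have t3 := G.sys.hs b c
  have t4 := G.sys.hs a c
  linarith only [t, t2, t3, t4, h1, h2]

/-- No vertex has degree at most one. -/
theorem low1 (G : Good h u) (hv : ∀ i : Fin 8, i.val < 6 → h 7 i = 0) : False := by
  have S := G.sys
  have P := G.pairs
  have k01 := G.clq 0 1 7 (by decide) (by decide) (by decide) (hv 0 (by decide))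
    (hv 1 (by decide))
  have k02 := G.clq 0 2 7 (by decide) (by decide) (by decide) (hv 0 (by decide))
    (hv 2 (by decide))
  have k03 := G.clq 0 3 7 (by decide) (by decide) (by decide) (hv 0 (by decide))
    (hv 3 (by decide))
  have k04 := G.clq 0 4 7 (by decide) (by decide) (by decide) (hv 0 (by decide))
    (hv 4 (by decide))
  have k05 := G.clq 0 5 7 (by decide) (by decide) (by decide) (hv 0 (by decide))
    (hv 5 (by decide))
  have k12 := G.clq 1 2 7 (by decide) (by decide) (by decide) (hv 1 (by decide))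
    (hv 2 (by decide))
  have k13 := G.clq 1 3 7 (by decide) (by decide) (by decide) (hv 1 (by decide))
    (hv 3 (by decide))
  have k14 := G.clq 1 4 7 (by decide) (by decide) (by decide) (hv 1 (by decide))
    (hv 4 (by decide))
  have k15 := G.clq 1 5 7 (by decide) (by decide) (by decide) (hv 1 (by decide))
    (hv 5 (by decide))
  have k23 := G.clq 2 3 7 (by decide) (by decide) (by decide) (hv 2 (by decide))
    (hv 3 (by decide))
  have k24 := G.clq 2 4 7 (by decide) (by decide) (by decide) (hv 2 (by decide))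
    (hv 4 (by decide))
  have k25 := G.clq 2 5 7 (by decide) (by decide) (by decide) (hv 2 (by decide))
    (hv 5 (by decide))
  have k34 := G.clq 3 4 7 (by decide) (by decide) (by decide) (hv 3 (by decide))
    (hv 4 (by decide))
  have k35 := G.clq 3 5 7 (by decide) (by decide) (by decide) (hv 3 (by decide))
    (hv 5 (by decide))
  have k45 := G.clq 4 5 7 (by decide) (by decide) (by decide) (hv 4 (by decide))
    (hv 5 (by decide))
  have z0 := S.h0 0 6
  have z1 := S.h0 0 7
  have z2 := S.h0 1 6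
  have z3 := S.h0 1 7
  have z4 := S.h0 2 6
  have z5 := S.h0 2 7
  have z6 := S.h0 3 6
  have z7 := S.h0 3 7
  have z8 := S.h0 4 6
  have z9 := S.h0 4 7
  have z10 := S.h0 5 6
  have z11 := S.h0 5 7
  have z12 := S.h0 6 7
  linarith only [P, k01, k02, k03, k04, k05, k12, k13, k14, k15, k23, k24, k25, k34, k35, k45, z0, z1, z2, z3, z4, z5, z6, z7, z8, z9, z10, z11, z12]

/-- No vertex has degree two. -/
theorem low2 (G : Good h u) (hv : ∀ i : Fin 8, i.val < 5 → h 7 i = 0) (h75 : h 7 5 = 1)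
    (h76 : h 7 6 = 1) : False := by
  have S := G.sys
  have P := G.pairs
  have v0 := hv 0 (by decide)
  have v1 := hv 1 (by decide)
  have v2 := hv 2 (by decide)
  have v3 := hv 3 (by decide)
  have v4 := hv 4 (by decide)
  have k01 := G.clq 0 1 7 (by decide) (by decide) (by decide) v0 v1
  have k02 := G.clq 0 2 7 (by decide) (by decide) (by decide) v0 v2
  have k03 := G.clq 0 3 7 (by decide) (by decide) (by decide) v0 v3
  have k04 := G.clq 0 4 7 (by decide) (by decide) (by decide) v0 v4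
  have k12 := G.clq 1 2 7 (by decide) (by decide) (by decide) v1 v2
  have k13 := G.clq 1 3 7 (by decide) (by decide) (by decide) v1 v3
  have k14 := G.clq 1 4 7 (by decide) (by decide) (by decide) v1 v4
  have k23 := G.clq 2 3 7 (by decide) (by decide) (by decide) v2 v3
  have k24 := G.clq 2 4 7 (by decide) (by decide) (by decide) v2 v4
  have k34 := G.clq 3 4 7 (by decide) (by decide) (by decide) v3 v4
  have w0 : h 0 7 = 0 := by rw [S.hs]; exact v0
  have w1 : h 1 7 = 0 := by rw [S.hs]; exact v1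
  have w2 : h 2 7 = 0 := by rw [S.hs]; exact v2
  have w3 : h 3 7 = 0 := by rw [S.hs]; exact v3
  have w4 : h 4 7 = 0 := by rw [S.hs]; exact v4
  have w5 : h 5 7 = 1 := by rw [S.hs]; exact h75
  have w6 : h 6 7 = 1 := by rw [S.hs]; exact h76
  have P' : h 0 5 + h 1 5 + h 2 5 + h 3 5 + h 4 5 + (h 0 6 + h 1 6 + h 2 6 + h 3 6 + h 4 6) + h 5 6 = 2 := by
    linarith only [P, k01, k02, k03, k04, k12, k13, k14, k23, k24, k34, w0, w1, w2, w3, w4, w5, w6]
  have a5 := S.usum 7 5
  rw [Fin.sum_univ_eight, h75] at a5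
  have b5 := S.ud 7 5
  have b5' : u 7 5 5 = 0 := by rw [S.us]; exact S.ud 5 7
  have g5 := S.u1 7 5 6
  have c50 : u 7 5 0 ≤ h 0 5 := by
    have t := G.ule 7 5 0 (by decide) (by decide) (by decide)
    rw [h75, v0, S.hs 5 0] at t
    linarith only [t]
  have c51 : u 7 5 1 ≤ h 1 5 := by
    have t := G.ule 7 5 1 (by decide) (by decide) (by decide)
    rw [h75, v1, S.hs 5 1] at t
    linarith only [t]
  have c52 : u 7 5 2 ≤ h 2 5 := by
    have t := G.ule 7 5 2 (by decide) (by decide) (by decide)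
    rw [h75, v2, S.hs 5 2] at t
    linarith only [t]
  have c53 : u 7 5 3 ≤ h 3 5 := by
    have t := G.ule 7 5 3 (by decide) (by decide) (by decide)
    rw [h75, v3, S.hs 5 3] at t
    linarith only [t]
  have c54 : u 7 5 4 ≤ h 4 5 := by
    have t := G.ule 7 5 4 (by decide) (by decide) (by decide)
    rw [h75, v4, S.hs 5 4] at t
    linarith only [t]
  have e5 : 1 ≤ h 0 5 + h 1 5 + h 2 5 + h 3 5 + h 4 5 := by
    linarith only [a5, b5, b5', g5, c50, c51, c52, c53, c54]
  have a6 := S.usum 7 6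
  rw [Fin.sum_univ_eight, h76] at a6
  have b6 := S.ud 7 6
  have b6' : u 7 6 6 = 0 := by rw [S.us]; exact S.ud 6 7
  have g6 := S.u1 7 6 5
  have c60 : u 7 6 0 ≤ h 0 6 := by
    have t := G.ule 7 6 0 (by decide) (by decide) (by decide)
    rw [h76, v0, S.hs 6 0] at t
    linarith only [t]
  have c61 : u 7 6 1 ≤ h 1 6 := by
    have t := G.ule 7 6 1 (by decide) (by decide) (by decide)
    rw [h76, v1, S.hs 6 1] at t
    linarith only [t]
  have c62 : u 7 6 2 ≤ h 2 6 := by
    have t := G.ule 7 6 2 (by decide) (by decide) (by decide)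
    rw [h76, v2, S.hs 6 2] at t
    linarith only [t]
  have c63 : u 7 6 3 ≤ h 3 6 := by
    have t := G.ule 7 6 3 (by decide) (by decide) (by decide)
    rw [h76, v3, S.hs 6 3] at t
    linarith only [t]
  have c64 : u 7 6 4 ≤ h 4 6 := by
    have t := G.ule 7 6 4 (by decide) (by decide) (by decide)
    rw [h76, v4, S.hs 6 4] at t
    linarith only [t]
  have e6 : 1 ≤ h 0 6 + h 1 6 + h 2 6 + h 3 6 + h 4 6 := by
    linarith only [a6, b6, b6', g6, c60, c61, c62, c63, c64]
  have q0 := G.tri 0 5 6 (by decide) (by decide) (by decide)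
  have q1 := G.tri 1 5 6 (by decide) (by decide) (by decide)
  have q2 := G.tri 2 5 6 (by decide) (by decide) (by decide)
  have q3 := G.tri 3 5 6 (by decide) (by decide) (by decide)
  have q4 := G.tri 4 5 6 (by decide) (by decide) (by decide)
  rcases S.h01 5 6 with f | f
  · linarith only [P', f, q0, q1, q2, q3, q4]
  · linarith only [P', f, e5, e6]

/-- Every vertex has degree at least three. -/
theorem deg_ge (G : Good h u) (v : Fin 8) : 3 ≤ ∑ b, h v b := by
  by_contra hlt
  have h0 : 0 ≤ ∑ b, h v b := Finset.sum_nonneg fun b _ => G.sys.h0 v b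
  obtain ⟨k, hk⟩ := Int.eq_ofNat_of_zero_le h0
  have hk2 : k ≤ 2 := by omega
  obtain ⟨σ, h1, h2⟩ := pattern G.sys v k (by omega) hk
  have G' := G.comp σ
  by_cases hk' : k = 2
  · subst hk'
    exact low2 G' (fun i hi => h1 i (by omega)) (h2 5 (by decide) (by decide))
      (h2 6 (by decide) (by decide))
  · exact low1 G' (fun i hi => h1 i (by omega))

/-- The extremal situation does not occur. -/
theorem cls (G : Good h u) (hv : ∀ i : Fin 8, i.val < 4 → h 7 i = 0) (h74 : h 7 4 = 1)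
    (h75 : h 7 5 = 1) (h76 : h 7 6 = 1) : False := by
  have S := G.sys
  have P := G.pairs
  have v0 := hv 0 (by decide)
  have v1 := hv 1 (by decide)
  have v2 := hv 2 (by decide)
  have v3 := hv 3 (by decide)
  have k01 := G.clq 0 1 7 (by decide) (by decide) (by decide) v0 v1
  have k02 := G.clq 0 2 7 (by decide) (by decide) (by decide) v0 v2
  have k03 := G.clq 0 3 7 (by decide) (by decide) (by decide) v0 v3
  have k12 := G.clq 1 2 7 (by decide) (by decide) (by decide) v1 v2
  have k13 := G.clq 1 3 7 (by decide) (by decide) (by decide) v1 v3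
  have k23 := G.clq 2 3 7 (by decide) (by decide) (by decide) v2 v3
  have w0 : h 0 7 = 0 := by rw [S.hs]; exact v0
  have w1 : h 1 7 = 0 := by rw [S.hs]; exact v1
  have w2 : h 2 7 = 0 := by rw [S.hs]; exact v2
  have w3 : h 3 7 = 0 := by rw [S.hs]; exact v3
  have w4 : h 4 7 = 1 := by rw [S.hs]; exact h74
  have w5 : h 5 7 = 1 := by rw [S.hs]; exact h75
  have w6 : h 6 7 = 1 := by rw [S.hs]; exact h76
  have P' : h 0 4 + h 1 4 + h 2 4 + h 3 4 + (h 0 5 + h 1 5 + h 2 5 + h 3 5)
      + (h 0 6 + h 1 6 + h 2 6 + h 3 6) + (h 4 5 + h 4 6 + h 5 6) = 5 := by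
    linarith only [P, k01, k02, k03, k12, k13, k23, w0, w1, w2, w3, w4, w5, w6]
  have d4 := deg_ge G 4
  have d5 := deg_ge G 5
  have d6 := deg_ge G 6
  rw [Fin.sum_univ_eight, S.hi, S.hs 4 0, S.hs 4 1, S.hs 4 2, S.hs 4 3, w4] at d4
  rw [Fin.sum_univ_eight, S.hi, S.hs 5 0, S.hs 5 1, S.hs 5 2, S.hs 5 3, S.hs 5 4, w5] at d5
  rw [Fin.sum_univ_eight, S.hi, S.hs 6 0, S.hs 6 1, S.hs 6 2, S.hs 6 3, S.hs 6 4, S.hs 6 5, w6] at d6
  have q450 := G.tri 0 4 5 (by decide) (by decide) (by decide)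
  have q451 := G.tri 1 4 5 (by decide) (by decide) (by decide)
  have q452 := G.tri 2 4 5 (by decide) (by decide) (by decide)
  have q453 := G.tri 3 4 5 (by decide) (by decide) (by decide)
  have q460 := G.tri 0 4 6 (by decide) (by decide) (by decide)
  have q461 := G.tri 1 4 6 (by decide) (by decide) (by decide)
  have q462 := G.tri 2 4 6 (by decide) (by decide) (by decide)
  have q463 := G.tri 3 4 6 (by decide) (by decide) (by decide)
  have q560 := G.tri 0 5 6 (by decide) (by decide) (by decide)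
  have q561 := G.tri 1 5 6 (by decide) (by decide) (by decide)
  have q562 := G.tri 2 5 6 (by decide) (by decide) (by decide)
  have q563 := G.tri 3 5 6 (by decide) (by decide) (by decide)
  have z04 := S.h0 0 4
  have z05 := S.h0 0 5
  have z06 := S.h0 0 6
  have z14 := S.h0 1 4
  have z15 := S.h0 1 5
  have z16 := S.h0 1 6
  have z24 := S.h0 2 4
  have z25 := S.h0 2 5
  have z26 := S.h0 2 6
  have z34 := S.h0 3 4
  have z35 := S.h0 3 5
  have z36 := S.h0 3 6
  have g45 := S.h0 4 5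
  have g46 := S.h0 4 6
  have g56 := S.h0 5 6
  have k45 : h 4 5 = 1 := by
    rcases S.h01 4 5 with f | f
    · exfalso; linarith only [f, P', d6, q450, q451, q452, q453]
    · exact f
  have k46 : h 4 6 = 1 := by
    rcases S.h01 4 6 with f | f
    · exfalso; linarith only [f, P', d5, q460, q461, q462, q463]
    · exact f
  have k56 : h 5 6 = 1 := by
    rcases S.h01 5 6 with f | f
    · exfalso; linarith only [f, P', d4, q560, q561, q562, q563]
    · exact f
  have hX : h 0 4 + h 1 4 + h 2 4 + h 3 4 + (h 0 5 + h 1 5 + h 2 5 + h 3 5)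
      + (h 0 6 + h 1 6 + h 2 6 + h 3 6) = 2 := by linarith only [P', k45, k46, k56]
  have n4 : 0 ≤ h 0 4 + h 1 4 + h 2 4 + h 3 4 := by linarith only [z04, z14, z24, z34]
  have n5 : 0 ≤ h 0 5 + h 1 5 + h 2 5 + h 3 5 := by linarith only [z05, z15, z25, z35]
  have n6 : 0 ≤ h 0 6 + h 1 6 + h 2 6 + h 3 6 := by linarith only [z06, z16, z26, z36]
  have hcase : (h 0 6 + h 1 6 + h 2 6 + h 3 6 = 0) ∨ (h 0 5 + h 1 5 + h 2 5 + h 3 5 = 0) ∨
      (h 0 4 + h 1 4 + h 2 4 + h 3 4 = 0) := by
    clear * - hX n4 n5 n6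
    generalize h 0 4 + h 1 4 + h 2 4 + h 3 4 = A at *
    generalize h 0 5 + h 1 5 + h 2 5 + h 3 5 = B at *
    generalize h 0 6 + h 1 6 + h 2 6 + h 3 6 = C at *
    omega
  have k54 : h 5 4 = 1 := by rw [S.hs]; exact k45
  have k64 : h 6 4 = 1 := by rw [S.hs]; exact k46
  have k65 : h 6 5 = 1 := by rw [S.hs]; exact k56
  rcases hcase with hc | hc | hc
  · have y0 : h 6 0 = 0 := by rw [S.hs]; linarith only [hc, z06, z16, z26, z36]
    have y1 : h 6 1 = 0 := by rw [S.hs]; linarith only [hc, z06, z16, z26, z36]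
    have y2 : h 6 2 = 0 := by rw [S.hs]; linarith only [hc, z06, z16, z26, z36]
    have y3 : h 6 3 = 0 := by rw [S.hs]; linarith only [hc, z06, z16, z26, z36]
    refine final G (v := 7) (p := 4) (q := 5) (r := 6) (a := 0) (b := 1) (c := 2) (d := 3)
      ⟨by decide, h74, h75, h76, k45, k46, k56, k01, k02, k03, k12, k13, k23, v0, v1, v2, v3,
        y0, y1, y2, y3, ?_⟩
    rw [S.hs 4 0, S.hs 4 1, S.hs 4 2, S.hs 4 3, S.hs 5 0, S.hs 5 1, S.hs 5 2, S.hs 5 3]
    linarith only [hX, hc]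
  · have y0 : h 5 0 = 0 := by rw [S.hs]; linarith only [hc, z05, z15, z25, z35]
    have y1 : h 5 1 = 0 := by rw [S.hs]; linarith only [hc, z05, z15, z25, z35]
    have y2 : h 5 2 = 0 := by rw [S.hs]; linarith only [hc, z05, z15, z25, z35]
    have y3 : h 5 3 = 0 := by rw [S.hs]; linarith only [hc, z05, z15, z25, z35]
    refine final G (v := 7) (p := 4) (q := 6) (r := 5) (a := 0) (b := 1) (c := 2) (d := 3)
      ⟨by decide, h74, h76, h75, k46, k45, k65, k01, k02, k03, k12, k13, k23, v0, v1, v2, v3,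
        y0, y1, y2, y3, ?_⟩
    rw [S.hs 4 0, S.hs 4 1, S.hs 4 2, S.hs 4 3, S.hs 6 0, S.hs 6 1, S.hs 6 2, S.hs 6 3]
    linarith only [hX, hc]
  · have y0 : h 4 0 = 0 := by rw [S.hs]; linarith only [hc, z04, z14, z24, z34]
    have y1 : h 4 1 = 0 := by rw [S.hs]; linarith only [hc, z04, z14, z24, z34]
    have y2 : h 4 2 = 0 := by rw [S.hs]; linarith only [hc, z04, z14, z24, z34]
    have y3 : h 4 3 = 0 := by rw [S.hs]; linarith only [hc, z04, z14, z24, z34]
    refine final G (v := 7) (p := 5) (q := 6) (r := 4) (a := 0) (b := 1) (c := 2) (d := 3)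
      ⟨by decide, h75, h76, h74, k56, k54, k64, k01, k02, k03, k12, k13, k23, v0, v1, v2, v3,
        y0, y1, y2, y3, ?_⟩
    rw [S.hs 5 0, S.hs 5 1, S.hs 5 2, S.hs 5 3, S.hs 6 0, S.hs 6 1, S.hs 6 2, S.hs 6 3]
    linarith only [hX, hc]

theorem no_good (G : Good h u) : False := by
  have : ∃ v, ∑ b, h v b < 4 := by
    by_contra hne
    push Not at hne
    have h1 : ∑ _v : Fin 8, (4 : ℤ) ≤ ∑ v, ∑ b, h v b := Finset.sum_le_sum fun v _ => hne v
    rw [G.tot] at h1
    simp at h1
  obtain ⟨v, hv⟩ := this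
  have h3 := deg_ge G v
  have hk : ∑ b, h v b = ((3 : ℕ) : ℤ) := by push_cast; omega
  obtain ⟨σ, h1, h2⟩ := pattern G.sys v 3 (by norm_num) hk
  exact cls (G.comp σ) (fun i hi => h1 i (by omega)) (h2 4 (by decide) (by decide))
    (h2 5 (by decide) (by decide)) (h2 6 (by decide) (by decide))

section graphs

variable {H : SimpleGraph (Fin 8)} {g : Sym2 (Fin 8) → Sym2 (Fin 8)}

open Classical in
/-- The indicator of the edges. -/
noncomputable def hh (H : SimpleGraph (Fin 8)) (a b : Fin 8) : ℤ := if H.Adj a b then 1 else 0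

open Classical in
/-- The indicator of the coverings. -/
noncomputable def uu (H : SimpleGraph (Fin 8)) (g : Sym2 (Fin 8) → Sym2 (Fin 8))
    (a b c : Fin 8) : ℤ := if H.Adj a b ∧ c ∈ g s(a, b) then 1 else 0

theorem sum_mem (z : Sym2 (Fin 8)) (hz : ¬ z.IsDiag) [∀ c, Decidable (c ∈ z)] :
    ∑ c, (if c ∈ z then (1 : ℤ) else 0) = 2 := by
  obtain ⟨x, y, rfl⟩ : ∃ x y, z = s(x, y) := by
    induction z with
    | _ x y => exact ⟨x, y, rfl⟩
  have hxy : x ≠ y := by simpa using hz
  rw [← Finset.sum_filter, Finset.sum_const]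
  have : (Finset.univ.filter (fun c => c ∈ s(x, y))) = {x, y} := by
    ext c; simp
  rw [this, Finset.card_pair hxy]
  norm_num

theorem arith (p1 p2 p3 q1 q2 q3 : Prop) [Decidable p1] [Decidable p2] [Decidable p3]
    [Decidable q1] [Decidable q2] [Decidable q3] (n1 : p1 → p2 → q1 ∨ q2) (n2 : p2 → p3 → q2 ∨ q3)
    (n3 : p3 → p1 → q3 ∨ q1) :
    (if p1 then (1 : ℤ) else 0) + (if p2 then 1 else 0) + (if p3 then 1 else 0) ≤
      (if p1 ∧ q1 then 1 else 0) + (if p2 ∧ q2 then 1 else 0) + (if p3 ∧ q3 then 1 else 0) + 1 := by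
  by_cases h1 : p1 <;> by_cases h2 : p2 <;> by_cases h3 : p3 <;> by_cases h4 : q1 <;>
    by_cases h5 : q2 <;> by_cases h6 : q3 <;> simp [h1, h2, h3, h4, h5, h6] at n1 n2 n3 ⊢

theorem sys_of (hg1 : ∀ e ∈ H.edgeSet, ¬ (g e).IsDiag) (hg2 : ∀ e ∈ H.edgeSet, Apart e (g e))
    (hg3 : ∀ a b c, a ≠ c → H.Adj a b → H.Adj b c → c ∈ g s(a, b) ∨ a ∈ g s(b, c)) :
    Sys (hh H) (uu H g) := by
  classical
  refine ⟨?_, ?_, ?_, ?_, ?_, ?_, ?_, ?_, ?_, ?_⟩
  · intro a b; unfold hh; split_ifs <;> norm_num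
  · intro a b; unfold hh; split_ifs <;> norm_num
  · intro a b; unfold hh; simp only [H.adj_comm]
  · intro a; unfold hh; simp
  · intro a b c; unfold uu; split_ifs <;> norm_num
  · intro a b c; unfold uu; split_ifs <;> norm_num
  · intro a b c; unfold uu; rw [H.adj_comm, Sym2.eq_swap]
  · intro a b
    unfold uu
    rw [if_neg]
    rintro ⟨h1, h2⟩
    exact hg2 s(a, b) h1 a (Sym2.mem_mk_left a b) h2
  · intro a b
    unfold uu hh
    by_cases hab : H.Adj a b
    · simp only [hab, true_and, if_true]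
      rw [sum_mem _ (hg1 _ hab)]
      norm_num
    · simp [hab]
  · intro a b c hab hbc hac
    unfold uu hh
    have n1 := hg3 a b c hac
    have n2 := hg3 b c a (Ne.symm hab)
    have n3 := hg3 c a b (Ne.symm hbc)
    exact arith _ _ _ _ _ _ n1 n2 n3

theorem sum_hh : ∑ a, ∑ b, hh H a b = 2 * (H.edgeSet.ncard : ℤ) := by
  classical
  have h1 : ∀ a, ∑ b, hh H a b = (H.degree a : ℤ) := by
    intro a
    unfold hh
    rw [← SimpleGraph.card_neighborFinset_eq_degree, SimpleGraph.neighborFinset_eq_filter,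
      Finset.card_filter]
    push_cast
    rfl
  simp_rw [h1]
  rw [← Nat.cast_sum, H.sum_degrees_eq_twice_card_edges]
  rw [Set.ncard_eq_toFinset_card', SimpleGraph.edgeFinset]
  push_cast
  rfl

theorem card_le (hg1 : ∀ e ∈ H.edgeSet, ¬ (g e).IsDiag) (hg2 : ∀ e ∈ H.edgeSet, Apart e (g e))
    (hg3 : ∀ a b c, a ≠ c → H.Adj a b → H.Adj b c → c ∈ g s(a, b) ∨ a ∈ g s(b, c)) :
    H.edgeSet.ncard ≤ 14 := by
  have := (sys_of hg1 hg2 hg3).le
  rw [sum_hh] at this
  omega

theorem card_ne (hg0 : ∀ e ∈ H.edgeSet, g e ∈ H.edgeSet) (hg2 : ∀ e ∈ H.edgeSet, Apart e (g e))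
    (hg3 : ∀ a b c, a ≠ c → H.Adj a b → H.Adj b c → c ∈ g s(a, b) ∨ a ∈ g s(b, c)) :
    H.edgeSet.ncard ≠ 14 := by
  classical
  intro h14
  have hg1 : ∀ e ∈ H.edgeSet, ¬ (g e).IsDiag := fun e he => H.not_isDiag_of_mem_edgeSet (hg0 e he)
  have S := sys_of hg1 hg2 hg3
  refine no_good (h := hh H) (u := uu H g) ⟨S, by rw [sum_hh, h14]; norm_num, ?_⟩
  intro a b hab
  have hadj : H.Adj a b := by
    unfold hh at hab
    by_contra hne
    rw [if_neg hne] at hab
    norm_num at hab
  have h1 := hg0 s(a, b) hadj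
  obtain ⟨x, y, hxy⟩ : ∃ x y, g s(a, b) = s(x, y) := by
    induction hz : g s(a, b) with
    | _ x y => exact ⟨x, y, rfl⟩
  rw [hxy, SimpleGraph.mem_edgeSet] at h1
  refine ⟨x, y, h1.ne, ?_, ?_, ?_⟩
  · unfold hh; rw [if_pos h1]
  · unfold uu; rw [if_pos ⟨hadj, by rw [hxy]; exact Sym2.mem_mk_left x y⟩]
  · unfold uu; rw [if_pos ⟨hadj, by rw [hxy]; exact Sym2.mem_mk_right x y⟩]

end graphs

/-- The copy of the path with three vertices given by the path `a b c`. -/
def copyOf {V : Type*} {K : SimpleGraph V} {a b c : V} (hab : K.Adj a b) (hbc : K.Adj b c)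
    (hac : a ≠ c) : (pathGraph 3).Copy K where
  toHom := ⟨![a, b, c], by
    intro i j hij
    rw [pathGraph_adj] at hij
    fin_cases i <;> fin_cases j <;> simp at hij ⊢ <;>
      first | exact hab | exact hbc | exact hab.symm | exact hbc.symm⟩
  injective' := by
    intro i j hij
    have h1 := hab.ne
    have h2 := hbc.ne
    have h3 := h1.symm
    have h4 := h2.symm
    have h5 := hac.symm
    fin_cases i <;> fin_cases j <;> simp_all

theorem blocking_iff {V : Type*} {K : SimpleGraph V} {f : K.edgeSet → K.edgeSet}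
    (hf : Blocking (pathGraph 3) K f) {a b c : V} (hab : K.Adj a b) (hbc : K.Adj b c)
    (hac : a ≠ c) :
    (a ∈ (f ⟨s(a, b), hab⟩ : Sym2 V) ∨ b ∈ (f ⟨s(a, b), hab⟩ : Sym2 V) ∨
      c ∈ (f ⟨s(a, b), hab⟩ : Sym2 V)) ∨
    (a ∈ (f ⟨s(b, c), hbc⟩ : Sym2 V) ∨ b ∈ (f ⟨s(b, c), hbc⟩ : Sym2 V) ∨
      c ∈ (f ⟨s(b, c), hbc⟩ : Sym2 V)) := by
  obtain ⟨⟨e, he⟩, i, hi⟩ := hf (copyOf hab hbc hac)
  induction e with
  | _ x y =>
    have he' := he
    rw [mem_edgeSet, pathGraph_adj] at he'
    have hi' : (![a, b, c] : Fin 3 → V) i = a ∨ (![a, b, c] : Fin 3 → V) i = b ∨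
        (![a, b, c] : Fin 3 → V) i = c := by
      fin_cases i <;> simp
    have hval : ((copyOf hab hbc hac) i) = (![a, b, c] : Fin 3 → V) i := rfl
    rw [hval] at hi
    have hcase : s(x, y) = s((0 : Fin 3), 1) ∨ s(x, y) = s((1 : Fin 3), 2) := by
      clear hi he
      revert x y
      decide
    rcases hcase with hc | hc
    · left
      have e1 : (copyOf hab hbc hac).toHom.mapEdgeSet ⟨s(x, y), he⟩ = ⟨s(a, b), hab⟩ := by
        apply Subtype.ext
        show Sym2.map _ s(x, y) = s(a, b)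
        rw [hc]
        rfl
      rw [e1] at hi
      rcases hi' with h1 | h1 | h1 <;> rw [h1] at hi <;> tauto
    · right
      have e1 : (copyOf hab hbc hac).toHom.mapEdgeSet ⟨s(x, y), he⟩ = ⟨s(b, c), hbc⟩ := by
        apply Subtype.ext
        show Sym2.map _ s(x, y) = s(b, c)
        rw [hc]
        rfl
      rw [e1] at hi
      rcases hi' with h1 | h1 | h1 <;> rw [h1] at hi <;> tauto

/-- In the host-graph version at most `13` edges are possible. -/
theorem s_le {H : SimpleGraph (Fin 8)} {f : H.edgeSet → H.edgeSet}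
    (h1 : ∀ e : H.edgeSet, Apart (e : Sym2 (Fin 8)) (f e)) (h2 : Blocking (pathGraph 3) H f) :
    H.edgeSet.ncard ≤ 13 := by
  classical
  let g : Sym2 (Fin 8) → Sym2 (Fin 8) := fun e => if he : e ∈ H.edgeSet then (f ⟨e, he⟩ : Sym2 _) else e
  have hg : ∀ e (he : e ∈ H.edgeSet), g e = (f ⟨e, he⟩ : Sym2 (Fin 8)) := fun e he => dif_pos he
  have hg0 : ∀ e ∈ H.edgeSet, g e ∈ H.edgeSet := by
    intro e he
    rw [hg e he]
    exact (f ⟨e, he⟩).2
  have hg1 : ∀ e ∈ H.edgeSet, ¬ (g e).IsDiag := fun e he => H.not_isDiag_of_mem_edgeSet (hg0 e he)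
  have hg2 : ∀ e ∈ H.edgeSet, Apart e (g e) := by
    intro e he
    rw [hg e he]
    exact h1 ⟨e, he⟩
  have hg3 : ∀ a b c, a ≠ c → H.Adj a b → H.Adj b c → c ∈ g s(a, b) ∨ a ∈ g s(b, c) := by
    intro a b c hac hab hbc
    rw [hg s(a, b) hab, hg s(b, c) hbc]
    have n1 := h1 ⟨s(a, b), hab⟩ a (Sym2.mem_mk_left a b)
    have n2 := h1 ⟨s(a, b), hab⟩ b (Sym2.mem_mk_right a b)
    have n3 := h1 ⟨s(b, c), hbc⟩ b (Sym2.mem_mk_left b c)
    have n4 := h1 ⟨s(b, c), hbc⟩ c (Sym2.mem_mk_right b c)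
    rcases blocking_iff h2 hab hbc hac with (h | h | h) | (h | h | h)
    · exact absurd h n1
    · exact absurd h n2
    · exact Or.inl h
    · exact Or.inr h
    · exact absurd h n3
    · exact absurd h n4
  have k1 := card_le hg1 hg2 hg3
  have k2 := card_ne hg0 hg2 hg3
  omega

/-- In the global version at most `14` edges are possible. -/
theorem p_le {f : (⊤ : SimpleGraph (Fin 8)).edgeSet → (⊤ : SimpleGraph (Fin 8)).edgeSet}
    (h2 : Blocking (pathGraph 3) ⊤ f) :
    {e : (⊤ : SimpleGraph (Fin 8)).edgeSet | Apart (e : Sym2 (Fin 8)) (f e)}.ncard ≤ 14 := by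
  classical
  let M : Set (Sym2 (Fin 8)) :=
    {e | ∃ he : e ∈ (⊤ : SimpleGraph (Fin 8)).edgeSet, Apart e (f ⟨e, he⟩)}
  let H : SimpleGraph (Fin 8) := fromEdgeSet M
  have hH : H.edgeSet = M := by
    show (fromEdgeSet M).edgeSet = M
    rw [edgeSet_fromEdgeSet]
    ext e
    simp only [Set.mem_sdiff, and_iff_left_iff_imp]
    rintro ⟨he, -⟩ hd
    exact (⊤ : SimpleGraph (Fin 8)).not_isDiag_of_mem_edgeSet he hd
  have hM : M = Subtype.val '' {e : (⊤ : SimpleGraph (Fin 8)).edgeSet | Apart (e : Sym2 (Fin 8)) (f e)} := by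
    ext e
    constructor
    · rintro ⟨he, h⟩
      exact ⟨⟨e, he⟩, h, rfl⟩
    · rintro ⟨⟨e', he'⟩, h, rfl⟩
      exact ⟨he', h⟩
  have hcard : {e : (⊤ : SimpleGraph (Fin 8)).edgeSet | Apart (e : Sym2 (Fin 8)) (f e)}.ncard
      = H.edgeSet.ncard := by
    rw [hH, hM, Set.ncard_image_of_injective _ Subtype.val_injective]
  rw [hcard]
  let g : Sym2 (Fin 8) → Sym2 (Fin 8) := fun e =>
    if he : e ∈ (⊤ : SimpleGraph (Fin 8)).edgeSet then (f ⟨e, he⟩ : Sym2 _) else e
  have hg : ∀ e (he : e ∈ (⊤ : SimpleGraph (Fin 8)).edgeSet), g e = (f ⟨e, he⟩ : Sym2 (Fin 8)) :=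
    fun e he => dif_pos he
  have hmem : ∀ e ∈ H.edgeSet, ∃ he : e ∈ (⊤ : SimpleGraph (Fin 8)).edgeSet, Apart e (f ⟨e, he⟩) := by
    intro e he
    rw [hH] at he
    exact he
  have hg1 : ∀ e ∈ H.edgeSet, ¬ (g e).IsDiag := by
    intro e he
    obtain ⟨he', -⟩ := hmem e he
    rw [hg e he']
    exact (⊤ : SimpleGraph (Fin 8)).not_isDiag_of_mem_edgeSet (f ⟨e, he'⟩).2
  have hg2 : ∀ e ∈ H.edgeSet, Apart e (g e) := by
    intro e he
    obtain ⟨he', h⟩ := hmem e he
    rw [hg e he']
    exact h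
  refine card_le hg1 hg2 ?_
  intro a b c hac hab hbc
  obtain ⟨hab', k1⟩ := hmem s(a, b) hab
  obtain ⟨hbc', k2⟩ := hmem s(b, c) hbc
  rw [hg s(a, b) hab', hg s(b, c) hbc']
  have n1 := k1 a (Sym2.mem_mk_left a b)
  have n2 := k1 b (Sym2.mem_mk_right a b)
  have n3 := k2 b (Sym2.mem_mk_left b c)
  have n4 := k2 c (Sym2.mem_mk_right b c)
  rcases blocking_iff h2 hab' hbc' hac with (h | h | h) | (h | h | h)
  · exact absurd h n1
  · exact absurd h n2
  · exact Or.inl h
  · exact Or.inr h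
  · exact absurd h n3
  · exact absurd h n4

/-- The example: two cliques on four vertices joined by two edges; the other edges are fixed. -/
def ex (e : Sym2 (Fin 8)) : Sym2 (Fin 8) :=
  if e = s(0, 1) then s(3, 5) else if e = s(0, 2) then s(1, 3) else
  if e = s(0, 3) then s(1, 4) else if e = s(0, 4) then s(1, 2) else
  if e = s(1, 2) then s(0, 5) else if e = s(1, 3) then s(2, 5) else
  if e = s(1, 5) then s(4, 7) else if e = s(2, 3) then s(0, 1) else
  if e = s(4, 5) then s(0, 7) else if e = s(4, 6) then s(0, 5) else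
  if e = s(4, 7) then s(0, 6) else if e = s(5, 6) then s(1, 4) else
  if e = s(5, 7) then s(4, 6) else if e = s(6, 7) then s(4, 5) else e

theorem ex_diag : ∀ e : Sym2 (Fin 8), ¬ e.IsDiag → ¬ (ex e).IsDiag := by decide +kernel

theorem mem_top {e : Sym2 (Fin 8)} (he : ¬ e.IsDiag) : e ∈ (⊤ : SimpleGraph (Fin 8)).edgeSet := by
  rw [edgeSet_top]
  exact he

/-- The example as a map on the edges of `K₈`. -/
def exf (e : (⊤ : SimpleGraph (Fin 8)).edgeSet) : (⊤ : SimpleGraph (Fin 8)).edgeSet :=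
  ⟨ex e.1, mem_top (ex_diag e.1 ((⊤ : SimpleGraph (Fin 8)).not_isDiag_of_mem_edgeSet e.2))⟩

theorem ex_block : ∀ a b c : Fin 8, a ≠ b → b ≠ c → a ≠ c →
    (a ∈ ex s(a, b) ∨ c ∈ ex s(a, b)) ∨ (a ∈ ex s(b, c) ∨ b ∈ ex s(b, c)) := by decide +kernel

theorem exf_blocking : Blocking (pathGraph 3) ⊤ exf := by
  intro φ
  have h01 : (pathGraph 3).Adj 0 1 := by rw [pathGraph_adj]; decide
  have h12 : (pathGraph 3).Adj 1 2 := by rw [pathGraph_adj]; decide
  have i : Function.Injective φ := φ.injective'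
  have n1 : φ 0 ≠ φ 1 := fun h => absurd (i h) (by decide)
  have n2 : φ 1 ≠ φ 2 := fun h => absurd (i h) (by decide)
  have n3 : φ 0 ≠ φ 2 := fun h => absurd (i h) (by decide)
  rcases ex_block (φ 0) (φ 1) (φ 2) n1 n2 n3 with (h | h) | (h | h)
  · exact ⟨⟨s(0, 1), h01⟩, 0, h⟩
  · exact ⟨⟨s(0, 1), h01⟩, 2, h⟩
  · exact ⟨⟨s(1, 2), h12⟩, 0, h⟩
  · exact ⟨⟨s(1, 2), h12⟩, 1, h⟩

/-- The good edges of the example. -/
def exGood : Finset (Sym2 (Fin 8)) :=
  {s(0, 1), s(0, 2), s(0, 3), s(0, 4), s(1, 2), s(1, 3), s(1, 5), s(2, 3), s(4, 5), s(4, 6),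
    s(4, 7), s(5, 6), s(5, 7), s(6, 7)}

theorem exGood_card : exGood.card = 14 := by decide +kernel

theorem exGood_apart : ∀ e ∈ exGood, ¬ e.IsDiag ∧ ∀ v, v ∈ e → v ∉ ex e := by decide +kernel

theorem ex_count :
    14 ≤ {e : (⊤ : SimpleGraph (Fin 8)).edgeSet | Apart (e : Sym2 (Fin 8)) (exf e)}.ncard := by
  rw [← exGood_card, ← Set.ncard_coe_finset,
    ← Set.ncard_image_of_injective
      {e : (⊤ : SimpleGraph (Fin 8)).edgeSet | Apart (e : Sym2 (Fin 8)) (exf e)}
      Subtype.val_injective]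
  apply Set.ncard_le_ncard
  · intro e he
    have h := exGood_apart e he
    exact ⟨⟨e, mem_top h.1⟩, h.2, rfl⟩
  · exact Set.toFinite _

/-- For the path `P₃` with three vertices, `p(8, P₃) = 14` and `s(8, P₃) ≤ 13`; in particular
`p(n, G) = s(n, G)` does not hold for all graphs `G` and all `n ≥ 4`. -/
theorem main : pNum 8 (pathGraph 3) = 14 ∧ sNum 8 (pathGraph 3) ≤ 13 := by
  constructor
  · apply le_antisymm
    · apply csSup_le
      · exact ⟨14, exf, ex_count, exf_blocking⟩
      · rintro m ⟨f, h1, h2⟩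
        exact h1.trans (p_le h2)
    · apply le_csSup
      · refine ⟨14, ?_⟩
        rintro m ⟨f, h1, h2⟩
        exact h1.trans (p_le h2)
      · exact ⟨exf, ex_count, exf_blocking⟩
  · apply csSup_le
    · refine ⟨0, ⊥, by simp, ?_⟩
      refine ⟨id, ?_, ?_⟩
      · rintro ⟨e, he⟩
        simp at he
      · intro φ
        have h01 : (pathGraph 3).Adj 0 1 := by rw [pathGraph_adj]; decide
        exact absurd (φ.toHom.map_adj h01) (by simp)
    · rintro m ⟨H, rfl, f, h1, h2⟩
      exact s_le h1 h2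

end Pool.Agent.R92.Excl
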